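import Pool.Agent.Lib.MP_fc0021_co.Ins.Graph

/-!
For every `η > 0` and all large `ρ` there is a triangle-free graph with at most `ρ ^ (3 + η)`
vertices and independence ratio at most `1 / ρ`.
-/

set_option autoImplicit false

namespace Pool.Agent.Lib.MP_fc0021_co.Ins

open Filter Topology

lemma log_le_rpow (η A : ℝ) (hη : 0 < η) (hA : 0 < A) :
    ∀ᶠ x : ℝ in atTop, A * Real.log x + 2 ≤ x ^ η / 16 := by
  have h1 := (isLittleO_log_rpow_atTop hη).bound (show (0 : ℝ) < 1 / (32 * A) by positivity)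
  have h2 : ∀ᶠ x : ℝ in atTop, (64 : ℝ) ≤ x ^ η := (tendsto_rpow_atTop hη).eventually_ge_atTop 64
  filter_upwards [h1, h2, eventually_ge_atTop (1 : ℝ)] with x hx hx2 hx1
  have hlog : 0 ≤ Real.log x := Real.log_nonneg hx1
  have hpow : 0 ≤ x ^ η := by linarith
  rw [Real.norm_of_nonneg hlog, Real.norm_of_nonneg hpow] at hx
  have h3 : A * Real.log x ≤ x ^ η / 32 := by
    calc A * Real.log x ≤ A * (1 / (32 * A) * x ^ η) := by gcongr
      _ = x ^ η / 32 := by field_simp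
  linarith

/-- Triangle-free graphs with few vertices and small independence ratio. -/
theorem exists_trianglefree (η : ℝ) (hη : 0 < η) :
    ∀ᶠ ρ : ℕ in atTop, ∃ p : ℕ, 0 < p ∧ (p : ℝ) ≤ (ρ : ℝ) ^ (3 + η) ∧
      ∃ G : SimpleGraph (Fin p), (∀ x y z, G.Adj x y → G.Adj y z → ¬ G.Adj x z) ∧
      (∀ I : Finset (Fin p), (∀ x ∈ I, ∀ y ∈ I, ¬ G.Adj x y) → ρ * I.card ≤ p) := by
  have hη2 : 0 < η / 2 := by positivity
  have hη6 : 0 < η / 6 := by positivity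
  have hcast : Tendsto (fun n : ℕ => (n : ℝ)) atTop atTop := tendsto_natCast_atTop_atTop
  have hA := hcast.eventually (log_le_rpow (η / 6) (3 + η) hη6 (by positivity))
  have hB : ∀ᶠ ρ : ℕ in atTop, (2 : ℝ) ≤ (ρ : ℝ) ^ (η / 2) :=
    hcast.eventually ((tendsto_rpow_atTop hη2).eventually_ge_atTop 2)
  filter_upwards [hA, hB, eventually_ge_atTop 2] with ρ hρA hρB hρ2
  have hρ2' : (2 : ℝ) ≤ ρ := by exact_mod_cast hρ2
  have hρ0 : (0 : ℝ) < ρ := by linarith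
  have hρ1 : (1 : ℝ) ≤ ρ := by linarith
  set X : ℝ := (ρ : ℝ) ^ (2 + η / 2) with hX
  have hX4 : 4 ≤ X := by
    calc (4 : ℝ) = 2 ^ (2 : ℝ) := by norm_num
      _ ≤ (ρ : ℝ) ^ (2 : ℝ) := Real.rpow_le_rpow (by norm_num) hρ2' (by norm_num)
      _ ≤ X := Real.rpow_le_rpow_of_exponent_le hρ1 (by linarith)
  set s : ℕ := ⌊X⌋₊ with hs
  have hsX : (s : ℝ) ≤ X := Nat.floor_le (by linarith)
  have hXs : X < s + 1 := Nat.lt_floor_add_one X
  have hs2 : 2 ≤ s := by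
    have h1 : (2 : ℝ) < s + 1 - 0 := by linarith
    have h2 : (3 : ℝ) < s := by linarith
    have h3 : 3 < s := by exact_mod_cast h2
    omega
  have hsr : (2 : ℝ) ≤ s := by exact_mod_cast hs2
  set N : ℕ := 2 * ρ * s with hN
  have hNr : (N : ℝ) = 2 * ρ * s := by rw [hN]; push_cast; ring
  have hXρ : X * ρ = (ρ : ℝ) ^ (3 + η / 2) := by
    rw [hX]
    nth_rewrite 2 [← Real.rpow_one (ρ : ℝ)]
    rw [← Real.rpow_add hρ0]
    congr 1
    ring
  have hNlow : (ρ : ℝ) ^ (3 + η / 2) ≤ N := by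
    rw [← hXρ, hNr]
    have : X ≤ 2 * s := by linarith
    nlinarith
  have hNup : (N : ℝ) ≤ (ρ : ℝ) ^ (3 + η) := by
    calc (N : ℝ) ≤ 2 * (X * ρ) := by rw [hNr]; nlinarith
      _ = 2 * (ρ : ℝ) ^ (3 + η / 2) := by rw [hXρ]
      _ ≤ (ρ : ℝ) ^ (η / 2) * (ρ : ℝ) ^ (3 + η / 2) := by gcongr
      _ = (ρ : ℝ) ^ (3 + η) := by
          rw [← Real.rpow_add hρ0]
          congr 1
          ring
  have hNpos : (0 : ℝ) < N := lt_of_lt_of_le (by positivity) hNlow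
  have hlogN : Real.log N ≤ (3 + η) * Real.log ρ := by
    calc Real.log N ≤ Real.log ((ρ : ℝ) ^ (3 + η)) := Real.log_le_log hNpos hNup
      _ = _ := Real.log_rpow hρ0 _
  have hN1 : (1 : ℝ) ≤ N := by
    rw [hNr]; nlinarith
  have hlogN0 : 0 ≤ Real.log N := Real.log_nonneg hN1
  set d : ℕ := ⌈4 * ρ * (Real.log N + 1)⌉₊ with hd
  have hd1 : 4 * ρ * (Real.log N + 1) ≤ d := Nat.le_ceil _
  have hd2 : (d : ℝ) < 4 * ρ * (Real.log N + 1) + 1 := Nat.ceil_lt_add_one (by positivity)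
  have hd3 : (d : ℝ) ≤ ρ * (ρ : ℝ) ^ (η / 6) / 4 := by
    have h1 : (d : ℝ) ≤ 4 * ρ * (Real.log N + 2) := by nlinarith
    have h2 : Real.log N + 2 ≤ (ρ : ℝ) ^ (η / 6) / 16 := by linarith
    calc (d : ℝ) ≤ 4 * ρ * (Real.log N + 2) := h1
      _ ≤ 4 * ρ * ((ρ : ℝ) ^ (η / 6) / 16) := by gcongr
      _ = _ := by ring
  have hd4 : 64 * d ^ 3 ≤ 2 * ρ * s := by
    have h1 : (64 : ℝ) * (d : ℝ) ^ 3 ≤ N := by
      calc (64 : ℝ) * (d : ℝ) ^ 3 ≤ 64 * (ρ * (ρ : ℝ) ^ (η / 6) / 4) ^ 3 := by gcongr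
        _ = (ρ : ℝ) ^ 3 * ((ρ : ℝ) ^ (η / 6)) ^ 3 := by ring
        _ = (ρ : ℝ) ^ (3 + η / 2) := by
            rw [← Real.rpow_natCast ((ρ : ℝ) ^ (η / 6)) 3, ← Real.rpow_mul hρ0.le,
              ← Real.rpow_natCast (ρ : ℝ) 3, ← Real.rpow_add hρ0]
            congr 1
            push_cast
            ring
        _ ≤ N := hNlow
    have h2 : ((64 * d ^ 3 : ℕ) : ℝ) ≤ (N : ℝ) := by push_cast; exact h1
    exact_mod_cast h2
  have hcond : s * Real.log (2 * ρ * s : ℕ) + 2 ≤ d * (s * ((s : ℝ) - 1)) / (2 * ρ * s : ℕ) := by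
    rw [← hN, le_div_iff₀ hNpos]
    have h1 : (s * Real.log N + 2) * (2 * ρ * s) ≤ (2 * ρ * (s * (Real.log N + 1))) * s := by
      have : s * Real.log N + 2 ≤ s * (Real.log N + 1) := by nlinarith
      nlinarith [mul_le_mul_of_nonneg_left this (show (0 : ℝ) ≤ 2 * ρ * s by positivity)]
    have h2 : 2 * ρ * (s * (Real.log N + 1)) ≤ d * ((s : ℝ) - 1) := by
      have h3 : (s : ℝ) / 2 ≤ (s : ℝ) - 1 := by linarith
      calc 2 * ρ * (s * (Real.log N + 1)) = (4 * ρ * (Real.log N + 1)) * (s / 2) := by ring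
        _ ≤ d * (s / 2) := by gcongr
        _ ≤ d * ((s : ℝ) - 1) := by gcongr
    calc (s * Real.log N + 2) * N = (s * Real.log N + 2) * (2 * ρ * s) := by rw [hNr]
      _ ≤ (2 * ρ * (s * (Real.log N + 1))) * s := h1
      _ ≤ (d * ((s : ℝ) - 1)) * s := by gcongr
      _ = d * (s * ((s : ℝ) - 1)) := by ring
  obtain ⟨p, hp0, hpN, G, hG1, hG2⟩ := exists_graph (by omega) hs2 hcond hd4
  refine ⟨p, hp0, ?_, G, hG1, hG2⟩
  refine le_trans ?_ hNup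
  exact_mod_cast hpN

end Pool.Agent.Lib.MP_fc0021_co.Ins
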