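import Pool.Agent.Lib.MP_fc0021_co.Ins.Rate

set_option autoImplicit false

namespace Pool.Agent.Lib.MP_fc0021_co.Ins

open Filter Topology

lemma pow14_le_exp : ∀ᶠ x : ℝ in atTop, x ^ 14 ≤ Real.exp x := by
  have h := (Real.isLittleO_pow_exp_atTop (n := 14)).bound (show (0 : ℝ) < 1 by norm_num)
  filter_upwards [h, eventually_ge_atTop (0 : ℝ)] with x hx hx0
  rwa [one_mul, Real.norm_of_nonneg (by positivity), Real.norm_of_nonneg (Real.exp_pos x).le] at hx

/-- `f(n) ≤ n / (log n) ^ a` for all large `n`, for every `a < 1/6`. -/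
theorem rate (a : ℝ) (ha0 : 0 < a) (ha : a < 1 / 6) :
    ∀ᶠ n : ℕ in atTop, ∃ m : ℕ, IsLeast (productChromatic n) m ∧
      (m : ℝ) ≤ n / (Real.log n) ^ a := by
  set b : ℝ := (a + 1 / 6) / 2 with hb
  have hb0 : 0 < b := by rw [hb]; linarith
  have hab : a < b := by rw [hb]; linarith
  have hb6 : b < 1 / 6 := by rw [hb]; linarith
  set η : ℝ := (1 / (2 * b) - 3) / 2 with hη
  have hinv : 3 < 1 / (2 * b) := by
    rw [lt_div_iff₀ (by positivity)]; linarith
  have hη0 : 0 < η := by rw [hη]; linarith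
  set e : ℝ := (1 + 6 * b) / 2 with he
  have he1 : e < 1 := by rw [he]; linarith
  have heq : 2 * b * (3 + η) = e := by
    rw [hη, he]
    field_simp
    ring
  have hlog : Tendsto (fun n : ℕ => Real.log n) atTop atTop :=
    Real.tendsto_log_atTop.comp tendsto_natCast_atTop_atTop
  have hK : Tendsto (fun n : ℕ => ⌈(Real.log n) ^ b⌉₊) atTop atTop :=
    tendsto_nat_ceil_atTop.comp ((tendsto_rpow_atTop hb0).comp hlog)
  have hρ : Tendsto (fun n : ℕ => (⌈(Real.log n) ^ b⌉₊ + 1) ^ 2) atTop atTop := by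
    refine tendsto_atTop_mono (fun n => ?_) hK
    nlinarith
  have E1 := hlog.eventually ((tendsto_rpow_atTop hb0).eventually_ge_atTop 2)
  have E2 := hlog.eventually
    ((tendsto_rpow_atTop (show 0 < 1 - e by linarith)).eventually_ge_atTop (4 * 4 ^ (3 + η)))
  have E3 := hlog.eventually pow14_le_exp
  have E4 := hlog.eventually
    ((tendsto_rpow_atTop (show 0 < b - a by linarith)).eventually_ge_atTop 8)
  have E5 := hlog.eventually
    ((tendsto_rpow_atTop (show 0 < 1 - b by linarith)).eventually_ge_atTop 2)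
  have E6 := hρ.eventually (exists_trianglefree η hη0)
  have E7 := hlog.eventually (eventually_ge_atTop (2 : ℝ))
  filter_upwards [E1, E2, E3, E4, E5, E6, E7, eventually_ge_atTop 1] with n h1 h2 h3 h4 h5 h6 h7 hn1
  set x : ℝ := Real.log n with hx
  have hx0 : 0 < x := by linarith
  have hn0 : (0 : ℝ) < n := by exact_mod_cast hn1
  have hexp : Real.exp x = n := by rw [hx, Real.exp_log hn0]
  set K : ℕ := ⌈x ^ b⌉₊ with hKdef
  have hK1 : x ^ b ≤ K := Nat.le_ceil _
  have hK2 : (K : ℝ) < x ^ b + 1 := Nat.ceil_lt_add_one (by positivity)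
  have hKpos : (0 : ℝ) < K := by linarith
  have hKge1 : 1 ≤ K := by
    have : 0 < K := by exact_mod_cast hKpos
    omega
  have hxb : x ^ b ≤ x / 2 := by
    have h8 : x ^ b * x ^ (1 - b) = x := by
      rw [← Real.rpow_add hx0]
      have : b + (1 - b) = 1 := by ring
      rw [this, Real.rpow_one]
    have h9 : 0 ≤ x ^ b := by positivity
    nlinarith
  have hKx : (K : ℝ) ≤ x := by linarith
  obtain ⟨p, hp0, hpρ, G, hG1, hG2⟩ := h6
  -- the number of vertices
  have hpx : (p : ℝ) ≤ x / 4 := by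
    have h8 : ((((K + 1) ^ 2 : ℕ) : ℝ)) ≤ 4 * x ^ (2 * b) := by
      push_cast
      have h9 : (K : ℝ) + 1 ≤ 2 * x ^ b := by linarith
      have h10 : x ^ (2 * b) = (x ^ b) ^ 2 := by
        rw [← Real.rpow_natCast (x ^ b) 2, ← Real.rpow_mul hx0.le]
        congr 1
        push_cast
        ring
      rw [h10]
      nlinarith
    have h11 : (4 * x ^ (2 * b)) ^ (3 + η) = 4 ^ (3 + η) * x ^ e := by
      rw [Real.mul_rpow (by norm_num) (by positivity), ← Real.rpow_mul hx0.le, heq]
    have h12 : x ^ e * x ^ (1 - e) = x := by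
      rw [← Real.rpow_add hx0]
      have : e + (1 - e) = 1 := by ring
      rw [this, Real.rpow_one]
    have h13 : 0 ≤ x ^ e := by positivity
    calc (p : ℝ) ≤ ((((K + 1) ^ 2 : ℕ) : ℝ)) ^ (3 + η) := hpρ
      _ ≤ (4 * x ^ (2 * b)) ^ (3 + η) := Real.rpow_le_rpow (by positivity) h8 (by linarith)
      _ = 4 ^ (3 + η) * x ^ e := h11
      _ ≤ x / 4 := by
          have := mul_le_mul_of_nonneg_left h2 h13
          rw [h12] at this
          linarith
  have hpx' : (p : ℝ) ≤ x := by linarith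
  -- size condition
  have h2p : (2 : ℝ) ^ p ≤ Real.exp (x / 4) := by
    have h8 : (2 : ℝ) ≤ Real.exp 1 := by
      have := Real.exp_one_gt_d9
      linarith
    calc (2 : ℝ) ^ p ≤ (Real.exp 1) ^ p := pow_le_pow_left₀ (by norm_num) h8 p
      _ = Real.exp p := by rw [← Real.exp_nat_mul, mul_one]
      _ ≤ Real.exp (x / 4) := Real.exp_le_exp.mpr hpx
  have hx7 : x ^ 7 ≤ Real.exp (x / 2) := by
    have h8 : (x ^ 7) ^ 2 ≤ (Real.exp (x / 2)) ^ 2 := by
      rw [← Real.exp_nat_mul]
      have e1 : ((2 : ℕ) : ℝ) * (x / 2) = x := by push_cast; ring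
      rw [e1, ← pow_mul]
      exact h3
    exact le_of_sq_le_sq h8 (Real.exp_pos _).le
  have hsize : (K : ℝ) ^ 2 * (K * (p * p) * 2 ^ p * (p * p)) ≤ n := by
    have h8 : (K : ℝ) ^ 3 * p ^ 4 ≤ x ^ 7 := by
      calc (K : ℝ) ^ 3 * p ^ 4 ≤ x ^ 3 * x ^ 4 := by gcongr
        _ = x ^ 7 := by ring
    calc (K : ℝ) ^ 2 * (K * (p * p) * 2 ^ p * (p * p)) = ((K : ℝ) ^ 3 * p ^ 4) * 2 ^ p := by ring
      _ ≤ x ^ 7 * Real.exp (x / 4) := by gcongr
      _ ≤ Real.exp (x / 2) * Real.exp (x / 4) := by gcongr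
      _ = Real.exp (x / 2 + x / 4) := (Real.exp_add _ _).symm
      _ ≤ Real.exp x := Real.exp_le_exp.mpr (by linarith)
      _ = n := hexp
  set q : ℕ := n / (K * K) + 1 with hq
  have hKK : 0 < K * K := by positivity
  have hqlow : K * (p * p) * 2 ^ p * (p * p) < q := by
    have h8 : K * K * (K * (p * p) * 2 ^ p * (p * p)) ≤ n := by
      have h9 : ((K * K * (K * (p * p) * 2 ^ p * (p * p)) : ℕ) : ℝ) ≤ (n : ℝ) := by
        push_cast
        calc (K : ℝ) * K * (K * (p * p) * 2 ^ p * (p * p)) =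
            (K : ℝ) ^ 2 * (K * (p * p) * 2 ^ p * (p * p)) := by ring
          _ ≤ n := hsize
      exact_mod_cast h9
    have h10 : K * (p * p) * 2 ^ p * (p * p) ≤ n / (K * K) :=
      (Nat.le_div_iff_mul_le hKK).mpr (by rw [mul_comm]; exact h8)
    omega
  have hnq : n ≤ K * K * q := by
    have := Nat.lt_div_mul_add (a := n) hKK
    have h8 : K * K * q = n / (K * K) * (K * K) + K * K := by rw [hq]; ring
    omega
  obtain ⟨c, hc, hmain⟩ := core hp0 G K hKge1 hG1 hG2 q hqlow n hn1 hnq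
  refine ⟨sInf (productChromatic n), ⟨Nat.sInf_mem ⟨c, hc⟩, fun _ h => Nat.sInf_le h⟩, ?_⟩
  have h8 : ((sInf (productChromatic n) : ℕ) : ℝ) ≤ 4 * K * q := by
    exact_mod_cast (Nat.sInf_le hc).trans hmain
  have h9 : (q : ℝ) ≤ n / (K * K) + 1 := by
    rw [hq]
    push_cast
    have := @Nat.cast_div_le ℝ _ _ _ n (K * K)
    push_cast at this
    linarith
  have h10 : 4 * (K : ℝ) * q ≤ 8 * n / K := by
    have h11 : (K : ℝ) * K ≤ n := by
      calc (K : ℝ) * K ≤ x * x := by gcongr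
        _ ≤ x ^ 14 := by
            have : x ^ 14 = x * x * x ^ 12 := by ring
            rw [this]
            have h12 : 1 ≤ x ^ 12 := one_le_pow₀ (by linarith)
            nlinarith [mul_pos hx0 hx0]
        _ ≤ Real.exp x := h3
        _ = n := hexp
    calc 4 * (K : ℝ) * q ≤ 4 * K * (n / (K * K) + 1) := by gcongr
      _ = 4 * n / K + 4 * K := by field_simp
      _ ≤ 4 * n / K + 4 * n / K := by
          have : 4 * (K : ℝ) ≤ 4 * n / K := by
            rw [le_div_iff₀ hKpos]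
            nlinarith
          linarith
      _ = 8 * n / K := by ring
  have h11 : 8 * (n : ℝ) / K ≤ n / x ^ a := by
    have h12 : 8 * x ^ a ≤ K := by
      have h13 : x ^ (b - a) * x ^ a = x ^ b := by
        rw [← Real.rpow_add hx0]
        congr 1
        ring
      have h14 : 0 ≤ x ^ a := by positivity
      nlinarith
    have hxa : 0 < x ^ a := by positivity
    rw [div_le_div_iff₀ hKpos hxa]
    calc 8 * (n : ℝ) * x ^ a = n * (8 * x ^ a) := by ring
      _ ≤ n * K := by gcongr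
  exact h8.trans (h10.trans h11)

end Pool.Agent.Lib.MP_fc0021_co.Ins
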