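import Pool.Agent.Lib.MP_eee601_co.Ins.HostCore

/-!
Triangle-free graphs with `p` vertices and independence ratio at most `1 / ρ`, where
`p ≤ ρ ^ (3 + η)`.  (Union of random functions, one deletion; the counting lemmas come from
`MP_eee601_co/Ins/HostCore`.)
-/

set_option autoImplicit false

namespace Pool.Agent.Lib.MP_fc0021_co.Ins

open Finset
open Pool.MP_eee601_co.Ins.Host

/-- Few families have an independent set of exactly `s` vertices. -/
lemma card_bad {d N s : ℕ} (hN : 2 ≤ N)
    (h : s * Real.log N + 2 ≤ d * (s * ((s : ℝ) - 1)) / N) :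
    (((univ : Finset (Fin N)).powersetCard s).biUnion (indepSet d N)).card <
      (N : ℝ) ^ (d * N) / 4 := by
  classical
  have hN0 : 0 < N := by omega
  have hNr : (0 : ℝ) < N := by exact_mod_cast hN0
  set 𝒮 := (univ : Finset (Fin N)).powersetCard s with h𝒮
  have hone : ∀ S ∈ 𝒮, ((indepSet d N S).card : ℝ) ≤
      (N : ℝ) ^ (d * N) * Real.exp (-(d * (s * ((s : ℝ) - 1)) / N)) := by
    intro S hS
    rw [h𝒮, mem_powersetCard] at hS
    have := card_indepSet_le (d := d) S hN0
    rw [hS.2] at this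
    exact this
  have hcard : ((𝒮.biUnion (indepSet d N)).card : ℝ) ≤
      ∑ S ∈ 𝒮, ((indepSet d N S).card : ℝ) := by
    exact_mod_cast card_biUnion_le
  have hsum : ∑ S ∈ 𝒮, ((indepSet d N S).card : ℝ) ≤
      𝒮.card * ((N : ℝ) ^ (d * N) * Real.exp (-(d * (s * ((s : ℝ) - 1)) / N))) := by
    have := sum_le_card_nsmul 𝒮 (fun S => ((indepSet d N S).card : ℝ)) _ hone
    rwa [nsmul_eq_mul] at this
  have h𝒮c : (𝒮.card : ℝ) ≤ Real.exp (s * Real.log N) := by
    have h1 : 𝒮.card ≤ N ^ s := by
      rw [h𝒮, card_powersetCard, card_univ, Fintype.card_fin]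
      exact Nat.choose_le_pow N s
    have h2 : (N : ℝ) ^ s = Real.exp (s * Real.log N) := by
      rw [mul_comm, Real.exp_mul, Real.exp_log hNr, Real.rpow_natCast]
    rw [← h2]
    exact_mod_cast h1
  have hpow : (0 : ℝ) < (N : ℝ) ^ (d * N) := by positivity
  have he : Real.exp (s * Real.log N) * Real.exp (-(d * (s * ((s : ℝ) - 1)) / N)) < 1 / 4 := by
    rw [← Real.exp_add]
    have h1 : s * Real.log N + -(d * (s * ((s : ℝ) - 1)) / N) ≤ -2 := by linarith
    refine (Real.exp_le_exp.mpr h1).trans_lt ?_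
    have h5 : Real.exp (-2) = (Real.exp 1 * Real.exp 1)⁻¹ := by
      rw [← Real.exp_add, ← Real.exp_neg]
      norm_num
    rw [h5]
    have h6 := Real.exp_one_gt_d9
    have h7 : (7 : ℝ) < Real.exp 1 * Real.exp 1 := by nlinarith
    rw [inv_lt_comm₀ (by positivity) (by norm_num)]
    norm_num
    linarith
  calc ((𝒮.biUnion (indepSet d N)).card : ℝ)
      ≤ 𝒮.card * ((N : ℝ) ^ (d * N) * Real.exp (-(d * (s * ((s : ℝ) - 1)) / N))) := hcard.trans hsum
    _ ≤ Real.exp (s * Real.log N) *
        ((N : ℝ) ^ (d * N) * Real.exp (-(d * (s * ((s : ℝ) - 1)) / N))) :=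
        mul_le_mul_of_nonneg_right h𝒮c (by positivity)
    _ = (N : ℝ) ^ (d * N) *
        (Real.exp (s * Real.log N) * Real.exp (-(d * (s * ((s : ℝ) - 1)) / N))) := by ring
    _ < (N : ℝ) ^ (d * N) * (1 / 4) := mul_lt_mul_of_pos_left he hpow
    _ = (N : ℝ) ^ (d * N) / 4 := by ring

/-- A family with few triangles and no independent set of `s` vertices. -/
lemma exists_fam {d N s : ℕ} (hN : 2 ≤ N)
    (h : s * Real.log N + 2 ≤ d * (s * ((s : ℝ) - 1)) / N) :
    ∃ f : Fin d × Fin N → Fin N,
      (∀ S : Finset (Fin N), (∀ u ∈ S, ∀ v ∈ S, ¬ (fg f).Adj u v) → S.card < s) ∧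
      (cycs 0 f).card ≤ 4 * (2 * d) ^ 3 := by
  classical
  have hN0 : 0 < N := by omega
  have hNr : (0 : ℝ) < N := by exact_mod_cast hN0
  set K := (2 * d) ^ 3 with hK
  set B1 := ((univ : Finset (Fin N)).powersetCard s).biUnion (indepSet d N) with hB1
  set B2 : Finset (Fin d × Fin N → Fin N) := univ.filter fun f => 4 * K < (cycs 0 f).card with hB2
  have h1 : (B1.card : ℝ) < (N : ℝ) ^ (d * N) / 4 := card_bad hN h
  have h2 : B2.card * 4 ≤ N ^ (d * N) := by
    have ha : B2.card * (4 * K + 1) ≤ K * N ^ (d * N) := by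
      calc B2.card * (4 * K + 1) = ∑ _f ∈ B2, (4 * K + 1) := by rw [sum_const, smul_eq_mul]
        _ ≤ ∑ f ∈ B2, (cycs 0 f).card := by
            refine sum_le_sum fun f hf => ?_
            rw [hB2, mem_filter] at hf
            omega
        _ ≤ ∑ f : Fin d × Fin N → Fin N, (cycs 0 f).card :=
            sum_le_sum_of_subset (subset_univ _)
        _ ≤ K * N ^ (d * N) := sum_cycs_le 0 hN0
    rcases Nat.eq_zero_or_pos K with hK0 | hK0
    · rw [hK0] at ha
      have : B2.card = 0 := by simpa using ha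
      rw [this]
      positivity
    · have hb : K * (B2.card * 4) ≤ K * N ^ (d * N) := by
        calc K * (B2.card * 4) ≤ B2.card * (4 * K + 1) := by
              rw [mul_add, mul_one]
              have : K * (B2.card * 4) = B2.card * (4 * K) := by ring
              omega
          _ ≤ K * N ^ (d * N) := ha
      exact Nat.le_of_mul_le_mul_left hb hK0
  have h2r : (B2.card : ℝ) * 4 ≤ (N : ℝ) ^ (d * N) := by exact_mod_cast h2
  have hex : ∃ f, f ∉ B1 ∪ B2 := by
    by_contra hcon
    push Not at hcon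
    have huniv : B1 ∪ B2 = univ := eq_univ_iff_forall.mpr hcon
    have hc : (univ : Finset (Fin d × Fin N → Fin N)).card ≤ B1.card + B2.card := by
      rw [← huniv]
      exact card_union_le _ _
    rw [card_univ, Fintype.card_fun, Fintype.card_prod, Fintype.card_fin,
      Fintype.card_fin] at hc
    have hcr : (N : ℝ) ^ (d * N) ≤ B1.card + B2.card := by exact_mod_cast hc
    have hpos : (0 : ℝ) < (N : ℝ) ^ (d * N) := by positivity
    linarith
  obtain ⟨f, hf⟩ := hex
  rw [mem_union, not_or] at hf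
  refine ⟨f, fun S hS => ?_, ?_⟩
  · by_contra hlt
    push Not at hlt
    obtain ⟨T, hTS, hTc⟩ := exists_subset_card_eq hlt
    apply hf.1
    rw [hB1, mem_biUnion]
    refine ⟨T, ?_, ?_⟩
    · rw [mem_powersetCard]
      exact ⟨subset_univ _, hTc⟩
    · rw [indepSet, mem_filter]
      exact ⟨mem_univ _, fun u hu v hv => hS u (hTS hu) v (hTS hv)⟩
  · by_contra hlt
    push Not at hlt
    apply hf.2
    rw [hB2, mem_filter]
    exact ⟨mem_univ _, hlt⟩

/-- Deleting one vertex of every triangle. -/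
lemma exists_graph {d s ρ : ℕ} (hρ : 1 ≤ ρ) (hs : 2 ≤ s)
    (h : s * Real.log (2 * ρ * s : ℕ) + 2 ≤ d * (s * ((s : ℝ) - 1)) / (2 * ρ * s : ℕ))
    (hd : 64 * d ^ 3 ≤ 2 * ρ * s) :
    ∃ p : ℕ, 0 < p ∧ p ≤ 2 * ρ * s ∧ ∃ G : SimpleGraph (Fin p),
      (∀ x y z, G.Adj x y → G.Adj y z → ¬ G.Adj x z) ∧
      (∀ I : Finset (Fin p), (∀ x ∈ I, ∀ y ∈ I, ¬ G.Adj x y) → ρ * I.card ≤ p) := by
  classical
  set N := 2 * ρ * s with hNdef
  have hN : 2 ≤ N := by
    have : 1 * 2 ≤ ρ * s := Nat.mul_le_mul hρ hs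
    have : N = 2 * (ρ * s) := by rw [hNdef]; ring
    omega
  obtain ⟨f, hf1, hf2⟩ := exists_fam hN h
  set B : Finset (Fin N) := (cycs 0 f).image fun c => c.1 0 with hB
  have hBc : B.card ≤ 32 * d ^ 3 := by
    refine card_image_le.trans (hf2.trans (le_of_eq ?_))
    ring
  set V : Finset (Fin N) := Bᶜ with hV
  have hVc : N ≤ 2 * V.card := by
    have h1 := card_add_card_compl B
    rw [Fintype.card_fin, ← hV] at h1
    omega
  have hVle : V.card ≤ N := by
    have := card_le_univ V
    rwa [Fintype.card_fin] at this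
  set e : Fin V.card ↪o Fin N := V.orderEmbOfFin rfl with he
  have heV : ∀ i, e i ∉ B := fun i => by
    have h1 : e i ∈ V := orderEmbOfFin_mem V rfl i
    exact mem_compl.mp h1
  refine ⟨V.card, by omega, hVle, (fg f).comap e, ?_, ?_⟩
  · intro x y z hxy hyz hxz
    have h1 : (fg f).Adj (e x) (e y) := hxy
    have h2 : (fg f).Adj (e y) (e z) := hyz
    have h3 : (fg f).Adj (e x) (e z) := hxz
    -- a labelled triangle
    have hadj : ∀ i : Fin 3, (fg f).Adj ((![e x, e y, e z] : Fin 3 → Fin N) i)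
        ((![e x, e y, e z] : Fin 3 → Fin N) (i + 1)) := by
      intro i
      fin_cases i
      · exact h1
      · exact h2
      · exact h3.symm
    choose hne lab hlab using hadj
    set v : Fin 3 → Fin N := ![e x, e y, e z] with hv
    set c : (Fin (0 + 3) → Fin N) × (Fin (0 + 3) → Fin d × Bool) :=
      (v, fun i => (lab i, decide (f (lab i, v i) = v (i + 1)))) with hc
    have hcm : c ∈ cycs 0 f := by
      rw [cycs, mem_filter]
      refine ⟨mem_univ _, ?_, fun i => ?_⟩
      · intro i j hij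
        have hxy' : e x ≠ e y := h1.ne
        have hyz' : e y ≠ e z := h2.ne
        have hxz' : e x ≠ e z := h3.ne
        have hij' : v i = v j := hij
        fin_cases i <;> fin_cases j <;> simp_all
      · unfold src tgt
        by_cases h : f (lab i, v i) = v (i + 1)
        · simp only [hc, h, decide_true, if_true]
        · have h3 := (hlab i).resolve_left h
          simp only [hc, h, decide_false, Bool.false_eq_true, if_false]
          exact h3
    apply heV x
    rw [hB, mem_image]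
    exact ⟨c, hcm, rfl⟩
  · intro I hI
    have h1 : (I.map e.toEmbedding).card < s := by
      refine hf1 _ fun u hu v hv hadj => ?_
      rw [mem_map] at hu hv
      obtain ⟨x, hx, rfl⟩ := hu
      obtain ⟨y, hy, rfl⟩ := hv
      exact hI x hx y hy hadj
    rw [card_map] at h1
    have h2 : ρ * I.card ≤ ρ * s := Nat.mul_le_mul_left _ h1.le
    have h3 : N = 2 * (ρ * s) := by rw [hNdef]; ring
    omega

end Pool.Agent.Lib.MP_fc0021_co.Ins
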