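import Pool.Agent.Lib.MP_fc0021_co.Core
import Pool.Agent.Lib.MP_fc0021_co.Main
import Pool.Agent.Lib.MP_fc0021_co.Ins.Asymp

/-!
The Poljak-Rödl function with an explicit rate.
-/

set_option autoImplicit false

namespace Pool.Agent.Lib.MP_fc0021_co.Ins

open Finset Pool.Agent.Lib.MP_fc0021_co

/-- The categorical (tensor) product of two graphs. -/
def tensor {V W : Type} (G : SimpleGraph V) (H : SimpleGraph W) : SimpleGraph (V × W) where
  Adj p q := G.Adj p.1 q.1 ∧ H.Adj p.2 q.2
  symm := ⟨fun _ _ h => ⟨h.1.symm, h.2.symm⟩⟩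
  loopless := ⟨fun p h => G.loopless.irrefl p.1 h.1⟩

/-- The set of the numbers `χ(G × H)` for finite graphs `G`, `H` with `χ(G) = χ(H) = n`. Its least
element is the value `f(n)` of the Poljak-Rödl function. -/
def productChromatic (n : ℕ) : Set ℕ :=
  {c : ℕ | ∃ (V W : Type) (_ : Finite V) (_ : Finite W) (G : SimpleGraph V)
    (H : SimpleGraph W), G.chromaticNumber = n ∧ H.chromaticNumber = n ∧
    (tensor G H).chromaticNumber = c}

lemma lexK_lower {V : Type} [Fintype V] [DecidableEq V] (G : SimpleGraph V) (ρ : ℕ)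
    (hpos : 0 < Fintype.card V)
    (hind : ∀ I : Finset V, (∀ x ∈ I, ∀ y ∈ I, ¬ G.Adj x y) → ρ * I.card ≤ Fintype.card V)
    (q T : ℕ) (c : V × Fin q → Fin T) (hc : ∀ a b, (lexK G q).Adj a b → c a ≠ c b) :
    ρ * q ≤ T := by
  classical
  set I : Fin T → Finset V := fun s => Finset.univ.filter (fun x => ∃ i, c (x, i) = s) with hI
  have h1 : ∀ s, ρ * (I s).card ≤ Fintype.card V := by
    intro s
    apply hind
    intro x hx y hy hxy
    rw [hI] at hx hy
    simp only [Finset.mem_filter, Finset.mem_univ, true_and] at hx hy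
    obtain ⟨i, hi⟩ := hx
    obtain ⟨j, hj⟩ := hy
    exact hc (x, i) (y, j) (Or.inl hxy) (hi.trans hj.symm)
  have h2 : ∑ s, (I s).card = Fintype.card V * q := by
    have h3 : ∀ s, (I s).card = ∑ x, if (∃ i, c (x, i) = s) then 1 else 0 := by
      intro s
      rw [hI, Finset.card_filter]
    rw [Finset.sum_congr rfl (fun s _ => h3 s), Finset.sum_comm]
    have h4 : ∀ x, ∑ s, (if (∃ i, c (x, i) = s) then 1 else 0) = q := by
      intro x
      rw [← Finset.card_filter]
      have h5 : (Finset.univ.filter (fun s => ∃ i, c (x, i) = s)) =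
          Finset.univ.image (fun i => c (x, i)) := by
        ext s
        simp
      rw [h5, Finset.card_image_of_injective]
      · simp
      · intro i j hij
        by_contra hne
        exact hc (x, i) (x, j) (Or.inr ⟨rfl, hne⟩) hij
    rw [Finset.sum_congr rfl (fun x _ => h4 x)]
    simp
  have h6 : (ρ * q) * Fintype.card V ≤ T * Fintype.card V := by
    calc (ρ * q) * Fintype.card V = ρ * ∑ s, (I s).card := by rw [h2]; ring
      _ = ∑ s, ρ * (I s).card := by rw [Finset.mul_sum]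
      _ ≤ ∑ _s : Fin T, Fintype.card V := Finset.sum_le_sum (fun s _ => h1 s)
      _ = T * Fintype.card V := by simp
  exact Nat.le_of_mul_le_mul_right h6 hpos

lemma cover {V : Type} [Fintype V] [DecidableEq V] (G : SimpleGraph V) (ρ : ℕ)
    (hpos : 0 < Fintype.card V)
    (htf : ∀ x y z, G.Adj x y → G.Adj y z → ¬ G.Adj x z)
    (hind : ∀ I : Finset V, (∀ x ∈ I, ∀ y ∈ I, ¬ G.Adj x y) → ρ * I.card ≤ Fintype.card V)
    (K : ℕ) (hK : 2 * K ≤ ρ) (W : Finset V) (hW : W.card < K) :
    ∃ v, ∀ w ∈ W, v ≠ w ∧ ¬ G.Adj w v := by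
  classical
  by_contra hcon
  push Not at hcon
  have hsub : (Finset.univ : Finset V) ⊆
      W.biUnion (fun w => {w} ∪ Finset.univ.filter (fun v => G.Adj w v)) := by
    intro v _
    obtain ⟨w, hw, h⟩ := hcon v
    rw [Finset.mem_biUnion]
    refine ⟨w, hw, ?_⟩
    simp only [Finset.mem_union, Finset.mem_singleton, Finset.mem_filter, Finset.mem_univ, true_and]
    by_cases hvw : v = w
    · exact Or.inl hvw
    · exact Or.inr (h hvw)
  have h1 : ∀ w, ρ * ({w} ∪ Finset.univ.filter (fun v => G.Adj w v)).card ≤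
      2 * Fintype.card V := by
    intro w
    have ha := hind {w} (by
      intro x hx y hy hxy
      rw [Finset.mem_singleton] at hx hy
      rw [hx, hy] at hxy
      exact G.loopless.irrefl _ hxy)
    have hb := hind (Finset.univ.filter (fun v => G.Adj w v)) (by
      intro x hx y hy hxy
      simp only [Finset.mem_filter, Finset.mem_univ, true_and] at hx hy
      exact htf w x y hx hxy hy)
    calc ρ * ({w} ∪ Finset.univ.filter (fun v => G.Adj w v)).card
        ≤ ρ * (({w} : Finset V).card + (Finset.univ.filter (fun v => G.Adj w v)).card) :=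
          Nat.mul_le_mul_left _ (Finset.card_union_le _ _)
      _ ≤ 2 * Fintype.card V := by rw [mul_add]; omega
  have h2 : Fintype.card V ≤ ∑ w ∈ W, ({w} ∪ Finset.univ.filter (fun v => G.Adj w v)).card := by
    have := (Finset.card_le_card hsub).trans Finset.card_biUnion_le
    rwa [Finset.card_univ] at this
  have h3 : ρ * Fintype.card V ≤ (2 * W.card) * Fintype.card V := by
    calc ρ * Fintype.card V
        ≤ ρ * ∑ w ∈ W, ({w} ∪ Finset.univ.filter (fun v => G.Adj w v)).card :=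
          Nat.mul_le_mul_left _ h2
      _ = ∑ w ∈ W, ρ * ({w} ∪ Finset.univ.filter (fun v => G.Adj w v)).card := by
          rw [Finset.mul_sum]
      _ ≤ ∑ _w ∈ W, 2 * Fintype.card V := Finset.sum_le_sum (fun w _ => h1 w)
      _ = (2 * W.card) * Fintype.card V := by simp; ring
  have h4 := Nat.le_of_mul_le_mul_right h3 hpos
  omega

/-- A spanning subgraph with chromatic number exactly `n`, on `Fin a`. -/
lemma exact_sub {α : Type} [Fintype α] (Γ : SimpleGraph α) (n : ℕ) (hn : 1 ≤ n)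
    (h : ∀ (T : ℕ) (c : α → Fin T), (∀ x y, Γ.Adj x y → c x ≠ c y) → n ≤ T) :
    ∃ (a : ℕ) (Γ' : SimpleGraph (Fin a)) (f : Fin a → α),
      (∀ i j, Γ'.Adj i j → Γ.Adj (f i) (f j)) ∧ Γ'.chromaticNumber = (n : ℕ∞) := by
  classical
  -- an optimal colouring
  have hex : ∃ T : ℕ, ∃ c : α → Fin T, ∀ x y, Γ.Adj x y → c x ≠ c y :=
    ⟨Fintype.card α, Fintype.equivFin α, fun x y hxy heq =>
      hxy.ne ((Fintype.equivFin α).injective heq)⟩
  obtain ⟨N, ⟨c, hc⟩, hmin⟩ : ∃ N : ℕ, (∃ c : α → Fin N, ∀ x y, Γ.Adj x y → c x ≠ c y) ∧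
      ∀ T < N, ¬ ∃ c : α → Fin T, ∀ x y, Γ.Adj x y → c x ≠ c y :=
    ⟨Nat.find hex, Nat.find_spec hex, fun T hT => Nat.find_min hex hT⟩
  have hnN : n ≤ N := h N c hc
  set e := Fintype.equivFin α with he
  let Γ' : SimpleGraph (Fin (Fintype.card α)) :=
    { Adj := fun i j => Γ.Adj (e.symm i) (e.symm j) ∧ (c (e.symm i) : ℕ) < n ∧
        (c (e.symm j) : ℕ) < n
      symm := ⟨fun i j hij => ⟨hij.1.symm, hij.2.2, hij.2.1⟩⟩
      loopless := ⟨fun i hi => Γ.loopless.irrefl _ hi.1⟩ }
  refine ⟨Fintype.card α, Γ', e.symm, fun i j hij => hij.1, ?_⟩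
  have hcol : Γ'.Colorable n := by
    refine ⟨SimpleGraph.Coloring.mk (fun i => if h : (c (e.symm i) : ℕ) < n then
      ⟨c (e.symm i), h⟩ else ⟨0, hn⟩) ?_⟩
    intro i j hij heq
    have h1 : (c (e.symm i) : ℕ) < n := hij.2.1
    have h2 : (c (e.symm j) : ℕ) < n := hij.2.2
    simp only [h1, h2, dif_pos, Fin.mk.injEq] at heq
    exact hc _ _ hij.1 (Fin.ext heq)
  apply le_antisymm hcol.chromaticNumber_le
  by_contra hlt
  push Not at hlt
  -- a colouring with n - 1 colours
  have hcol' : Γ'.Colorable (n - 1) := by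
    rw [← SimpleGraph.chromaticNumber_le_iff_colorable]
    have hne : Γ'.chromaticNumber ≠ ⊤ := ne_top_of_lt hlt
    obtain ⟨k, hk⟩ := ENat.ne_top_iff_exists.mp hne
    rw [← hk] at hlt ⊢
    have : k < n := by exact_mod_cast hlt
    have : k ≤ n - 1 := by omega
    exact_mod_cast this
  obtain ⟨d⟩ := hcol'
  apply hmin (N - 1) (by omega)
  refine ⟨fun x => if hx : (c x : ℕ) < n then ⟨(d (e x) : ℕ), ?_⟩ else ⟨(c x : ℕ) - 1, ?_⟩, ?_⟩
  · have := (d (e x)).isLt
    omega
  · have := (c x).isLt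
    omega
  · intro x y hxy heq
    have hcxy := hc x y hxy
    by_cases hx : (c x : ℕ) < n
    · by_cases hy : (c y : ℕ) < n
      · simp only [hx, hy, dif_pos, Fin.mk.injEq] at heq
        have hadj : Γ'.Adj (e x) (e y) := by
          refine ⟨?_, ?_, ?_⟩
          · rw [Equiv.symm_apply_apply, Equiv.symm_apply_apply]; exact hxy
          · rw [Equiv.symm_apply_apply]; exact hx
          · rw [Equiv.symm_apply_apply]; exact hy
        exact d.valid hadj (Fin.ext heq)
      · simp only [hx, hy, dif_pos, dif_neg, not_false_eq_true, Fin.mk.injEq] at heq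
        have := (d (e x)).isLt
        omega
    · by_cases hy : (c y : ℕ) < n
      · simp only [hx, hy, dif_pos, dif_neg, not_false_eq_true, Fin.mk.injEq] at heq
        have := (d (e y)).isLt
        omega
      · simp only [hx, hy, dif_neg, not_false_eq_true, Fin.mk.injEq] at heq
        apply hcxy
        apply Fin.ext
        omega

/-- The core estimate: a triangle-free base graph with `p` vertices and independence ratio at most
`1 / (K + 1) ^ 2` gives `f(n) ≤ 4 K q` for all `n ≤ K ^ 2 q`, as soon as `q` is large compared with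
`2 ^ p`. -/
theorem core {p : ℕ} (hp : 0 < p) (G0 : SimpleGraph (Fin p)) (K : ℕ) (hK : 1 ≤ K)
    (htf : ∀ x y z, G0.Adj x y → G0.Adj y z → ¬ G0.Adj x z)
    (hind : ∀ I : Finset (Fin p), (∀ x ∈ I, ∀ y ∈ I, ¬ G0.Adj x y) → (K + 1) ^ 2 * I.card ≤ p)
    (q : ℕ) (hq : K * (p * p) * 2 ^ p * (p * p) < q) (n : ℕ) (hn : 1 ≤ n) (hnq : n ≤ K * K * q) :
    ∃ c ∈ productChromatic n, c ≤ 4 * K * q := by
  classical
  have hcardp : Fintype.card (Fin p) = p := Fintype.card_fin p
  have hind' : ∀ I : Finset (Fin p), (∀ x ∈ I, ∀ y ∈ I, ¬ G0.Adj x y) →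
      (K + 1) ^ 2 * I.card ≤ Fintype.card (Fin p) := by rw [hcardp]; exact hind
  have hposp : 0 < Fintype.card (Fin p) := by rw [hcardp]; exact hp
  have hcov := cover G0 ((K + 1) ^ 2) hposp htf hind' K (by nlinarith)
  have hqpos : 0 < q := by omega
  -- colours
  have hcard : Fintype.card (Fin (2 * K * q)) = 2 * K * q := Fintype.card_fin _
  have hm : K * (Fintype.card (Fin p) * Fintype.card (Fin p)) * 2 ^ Fintype.card (Fin p) *
      (Fintype.card (Fin p) * Fintype.card (Fin p)) < Fintype.card (Fin (2 * K * q)) := by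
    rw [hcard, hcardp]
    calc K * (p * p) * 2 ^ p * (p * p) < q := hq
      _ ≤ 2 * K * q := by nlinarith
  obtain ⟨a, G, f, hf, hG⟩ := exact_sub (lexK G0 q) n hn (by
    intro T c hc
    have h1 := lexK_lower G0 ((K + 1) ^ 2) hposp hind' q T c hc
    have h2 : K * K * q ≤ (K + 1) ^ 2 * q := by
      apply Nat.mul_le_mul_right
      nlinarith
    omega)
  obtain ⟨b, H, g, hg, hH⟩ := exact_sub
    (expG (lexK G0 q) (Fin (2 * K * q) ⊕ (Fin (2 * K) × Fin q))) n hn (by
    intro T Ψ hΨ
    have h1 := exp_lower (C := Fin (2 * K * q)) G0 K hqpos htf hcov hm Ψ hΨ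
    rw [hcard] at h1
    have h2 : K * (2 * K * q) = 2 * (K * K * q) := by ring
    omega)
  have hcol : (tensor G H).Colorable (4 * K * q) := by
    have hc : (tensor G H).Coloring (Fin (2 * K * q) ⊕ (Fin (2 * K) × Fin q)) := by
      refine SimpleGraph.Coloring.mk (fun ij => g ij.2 (f ij.1)) ?_
      rintro ⟨i, j⟩ ⟨i', j'⟩ hadj heq
      exact (hg _ _ hadj.2).2 _ _ (hf _ _ hadj.1) heq
    have h1 := hc.colorable
    have h2 : Fintype.card (Fin (2 * K * q) ⊕ (Fin (2 * K) × Fin q)) = 4 * K * q := by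
      simp only [Fintype.card_sum, Fintype.card_prod, Fintype.card_fin]
      ring
    rw [h2] at h1
    exact h1
  have h3 := hcol.chromaticNumber_le
  obtain ⟨c, hc⟩ := ENat.ne_top_iff_exists.mp (ne_top_of_le_ne_top (ENat.natCast_ne_top _) h3)
  have h4 : c ≤ 4 * K * q := by
    rw [← hc] at h3
    exact_mod_cast h3
  exact ⟨c, ⟨Fin a, Fin b, inferInstance, inferInstance, G, H, hG, hH, hc.symm⟩, h4⟩

end Pool.Agent.Lib.MP_fc0021_co.Ins
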